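import Mathlib
import Pool.Agent.Lib.Helper95.SparseStackCore

/-!
# SparseStack matrices of sparsity `c * sqrt (log r)` are not oblivious subspace injections

Sparsity `ζ`, block length `b`, embedding dimension `k = b * ζ`.  The matrix has `n` rows; its columns are
indexed by pairs (block, position in the block).  The main theorem `result` says that for every `C₂`, every
`α₀ > 0` and every `δ < 1` there are `c > 0` and `R` such that, for `r ≥ R`, `n ≥ r`, `ζ ≤ c * sqrt (log r)` and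
`b * ζ ≤ C₂ * r`, the SparseStack matrix is not an oblivious subspace injection for `r`-dimensional subspaces with
parameter `α₀` and failure probability `δ`.  In particular constant sparsity never suffices
(`negated_form_Q1`, `negative_answer_Q2`).
-/

open MeasureTheory ProbabilityTheory Finset Matrix
open scoped ENNReal

namespace Pool.Agent.Results.MP_59a663_pr.SparsityLowerBound

universe u

/-- `IsSparseStackSource P ϱ s`: on the probability space `(Ω, P)`, the signs `ϱ (i, j)` are Rademacher, the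
positions `s (i, j)` are uniform on the `b` positions `Fin b` (`i` is the row, `j` the block), and all these random
variables are independent: the pairs `(ϱ a, s a)` are independent over all `a = (i, j)`, and in each pair the sign
is independent of the position. -/
structure IsSparseStackSource {Ω : Type u} [MeasurableSpace Ω] (P : Measure Ω) {n ζ b : ℕ}
    (ϱ : Fin n × Fin ζ → Ω → ℝ) (s : Fin n × Fin ζ → Ω → Fin b) : Prop where
  isProbabilityMeasure : IsProbabilityMeasure P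
  measurable_sign : ∀ a, Measurable (ϱ a)
  measurable_pos : ∀ a, Measurable (s a)
  sign_one : ∀ a, P {ω | ϱ a ω = 1} = 1 / 2
  sign_neg_one : ∀ a, P {ω | ϱ a ω = -1} = 1 / 2
  pos_uniform : ∀ a c, P {ω | s a ω = c} = 1 / (b : ℝ≥0∞)
  indep_pairs : iIndepFun (fun a ω => (ϱ a ω, s a ω)) P
  indep_sign_pos : ∀ a, IndepFun (ϱ a) (s a) P

/-- The SparseStack random matrix with `n` rows and `ζ` blocks of `b` columns: block `j` of row `i` is
`ζ^(-1/2) * ϱ (i, j) * e_{s (i, j)}ᵀ`. -/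
noncomputable def sparseStack {Ω : Type u} {n ζ b : ℕ}
    (ϱ : Fin n × Fin ζ → Ω → ℝ) (s : Fin n × Fin ζ → Ω → Fin b) (ω : Ω) :
    Matrix (Fin n) (Fin ζ × Fin b) ℝ :=
  fun i c => if s (i, c.1) ω = c.2 then (√(ζ : ℝ))⁻¹ * ϱ (i, c.1) ω else 0

/-- Squared Euclidean norm of a real vector. -/
def sqNorm {ι : Type*} [Fintype ι] (x : ι → ℝ) : ℝ := ∑ i, x i ^ 2

/-- The random matrix `A`, with `n` rows, is an oblivious subspace injection for `r`-dimensional subspaces of `ℝⁿ`
with parameter `α` and failure probability `δ`: for every fixed `r`-dimensional subspace `V` of `ℝⁿ`, with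
probability at least `1 - δ` one has `α ‖x‖² ≤ ‖Aᵀ x‖²` for all `x ∈ V`. -/
def IsOSI {Ω : Type u} [MeasurableSpace Ω] (P : Measure Ω) {n : ℕ} {κ : Type*} [Fintype κ]
    (A : Ω → Matrix (Fin n) κ ℝ) (r : ℕ) (α δ : ℝ) : Prop :=
  ∀ V : Submodule ℝ (Fin n → ℝ), Module.finrank ℝ V = r →
    1 - δ ≤ P.real {ω | ∀ x ∈ V, α * sqNorm x ≤ sqNorm ((A ω)ᵀ *ᵥ x)}

open Pool.Agent.Helper95

/-- Probability that the first `r` rows realise a given pattern. -/
theorem prob_pattern {Ω : Type u} [MeasurableSpace Ω] {P : Measure Ω} {n ζ b : ℕ}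
    {ϱ : Fin n × Fin ζ → Ω → ℝ} {s : Fin n × Fin ζ → Ω → Fin b} (h : IsSparseStackSource P ϱ s)
    {r : ℕ} (hrn : r ≤ n) (σ : Fin r → Fin ζ → Bool) (t : Fin r → Fin ζ → Fin b) :
    P {ω | ∀ i j, ϱ (Fin.castLE hrn i, j) ω = sgn (σ i j) ∧ s (Fin.castLE hrn i, j) ω = t i j} =
      (1 / 2 * (1 / (b : ℝ≥0∞))) ^ (r * ζ) := by
  have hinj : Function.Injective (fun a : Fin r × Fin ζ => (Fin.castLE hrn a.1, a.2)) := by
    intro a a' haa
    simp only [Prod.mk.injEq] at haa
    exact Prod.ext (Fin.castLE_injective hrn haa.1) haa.2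
  have hind := iIndepFun.precomp hinj h.indep_pairs
  have hset : {ω | ∀ i j, ϱ (Fin.castLE hrn i, j) ω = sgn (σ i j) ∧ s (Fin.castLE hrn i, j) ω = t i j} =
      ⋂ a ∈ (univ : Finset (Fin r × Fin ζ)),
        (fun ω => (ϱ (Fin.castLE hrn a.1, a.2) ω, s (Fin.castLE hrn a.1, a.2) ω)) ⁻¹'
          {(sgn (σ a.1 a.2), t a.1 a.2)} := by
    ext ω
    simp only [Set.mem_ofPred_eq, mem_univ, Set.iInter_true, Set.mem_iInter, Set.mem_preimage,
      Set.mem_singleton_iff, Prod.mk.injEq, Prod.forall]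
  rw [hset, hind.measure_inter_preimage_eq_mul univ (fun a _ => measurableSet_singleton _)]
  have hone : ∀ a : Fin r × Fin ζ, P ((fun ω => (ϱ (Fin.castLE hrn a.1, a.2) ω, s (Fin.castLE hrn a.1, a.2) ω)) ⁻¹'
          {(sgn (σ a.1 a.2), t a.1 a.2)}) = 1 / 2 * (1 / (b : ℝ≥0∞)) := by
    intro a
    have e1 : (fun ω => (ϱ (Fin.castLE hrn a.1, a.2) ω, s (Fin.castLE hrn a.1, a.2) ω)) ⁻¹'
          {(sgn (σ a.1 a.2), t a.1 a.2)} =
        ϱ (Fin.castLE hrn a.1, a.2) ⁻¹' {sgn (σ a.1 a.2)} ∩ s (Fin.castLE hrn a.1, a.2) ⁻¹' {t a.1 a.2} := by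
      ext ω
      simp
    rw [e1, (h.indep_sign_pos _).measure_inter_preimage_eq_mul _ _ (measurableSet_singleton _)
      (measurableSet_singleton _)]
    congr 1
    · cases σ a.1 a.2
      · exact h.sign_neg_one _
      · exact h.sign_one _
    · exact h.pos_uniform _ _
  rw [Finset.prod_congr rfl (fun a _ => hone a), Finset.prod_const, Finset.card_univ,
    Fintype.card_prod, Fintype.card_fin, Fintype.card_fin]

theorem ae_sign {Ω : Type u} [MeasurableSpace Ω] {P : Measure Ω} {n ζ b : ℕ}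
    {ϱ : Fin n × Fin ζ → Ω → ℝ} {s : Fin n × Fin ζ → Ω → Fin b} (h : IsSparseStackSource P ϱ s) :
    ∀ᵐ ω ∂P, ∀ a, ϱ a ω = 1 ∨ ϱ a ω = -1 := by
  have := h.isProbabilityMeasure
  rw [ae_all_iff]
  intro a
  have hm1 : MeasurableSet {ω | ϱ a ω = 1} := h.measurable_sign a (measurableSet_singleton 1)
  have hm2 : MeasurableSet {ω | ϱ a ω = -1} := h.measurable_sign a (measurableSet_singleton (-1))
  have hdisj : Disjoint {ω | ϱ a ω = 1} {ω | ϱ a ω = -1} := by
    rw [Set.disjoint_left]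
    intro ω h1 h2
    simp only [Set.mem_ofPred_eq] at h1 h2
    rw [h1] at h2
    norm_num at h2
  have h1 : P ({ω | ϱ a ω = 1} ∪ {ω | ϱ a ω = -1}) = 1 := by
    rw [measure_union hdisj hm2, h.sign_one, h.sign_neg_one]
    exact ENNReal.add_halves 1
  exact (mem_ae_iff_prob_eq_one (hm1.union hm2)).mpr h1

open Classical in
/-- Transfer from the random matrix to counting of patterns on the first `r` rows. -/
theorem prob_le_card {Ω : Type u} [MeasurableSpace Ω] {P : Measure Ω} {n ζ b : ℕ}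
    {ϱ : Fin n × Fin ζ → Ω → ℝ} {s : Fin n × Fin ζ → Ω → Fin b} (h : IsSparseStackSource P ϱ s)
    {r : ℕ} (hrn : r ≤ n) (hζ : 1 ≤ ζ) (α ε : ℝ) (hε : 0 < ε)
    (hcard : ((univ.filter (fun q : (Fin r → Fin ζ → Bool) × (Fin r → Fin ζ → Fin b) =>
        Inj α q.1 q.2)).card : ℝ) ≤
      (Fintype.card ((Fin r → Fin ζ → Bool) × (Fin r → Fin ζ → Fin b)) : ℝ) * ε) :
    ∃ V : Submodule ℝ (Fin n → ℝ), Module.finrank ℝ V = r ∧
      P.real {ω | ∀ x ∈ V, α * sqNorm x ≤ sqNorm ((sparseStack ϱ s ω)ᵀ *ᵥ x)} ≤ ε := by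
  have hprob := h.isProbabilityMeasure
  have hζ' : (0 : ℝ) < ζ := by exact_mod_cast hζ
  set E : (Fin r → ℝ) →ₗ[ℝ] (Fin n → ℝ) :=
    Function.ExtendByZero.linearMap ℝ (Fin.castLE hrn) with hE
  have hcinj : Function.Injective (Fin.castLE hrn) := Fin.castLE_injective hrn
  have hEapp : ∀ x i, E x (Fin.castLE hrn i) = x i := by
    intro x i
    exact hcinj.extend_apply x 0 i
  have hEout : ∀ x i, i ∉ Set.range (Fin.castLE hrn) → E x i = 0 := by
    intro x i hi
    have hi' : ¬ ∃ a, Fin.castLE hrn a = i := fun ⟨a, ha⟩ => hi ⟨a, ha⟩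
    exact Function.extend_apply' x (0 : Fin n → ℝ) i hi'
  have hEinj : Function.Injective E := by
    intro x y hxy
    funext i
    rw [← hEapp x i, ← hEapp y i, hxy]
  refine ⟨LinearMap.range E, ?_, ?_⟩
  · rw [LinearMap.finrank_range_of_inj hEinj, Module.finrank_fintype_fun_eq_card, Fintype.card_fin]
  -- the event is covered by the patterns with property `Inj`
  set G : (Fin r → Fin ζ → Bool) × (Fin r → Fin ζ → Fin b) → Set Ω := fun q =>
    {ω | ∀ i j, ϱ (Fin.castLE hrn i, j) ω = sgn (q.1 i j) ∧ s (Fin.castLE hrn i, j) ω = q.2 i j} with hG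
  have hcover : ∀ᵐ ω ∂P, (∀ x ∈ LinearMap.range E, α * sqNorm x ≤ sqNorm ((sparseStack ϱ s ω)ᵀ *ᵥ x)) →
      ω ∈ ⋃ q ∈ univ.filter (fun q : (Fin r → Fin ζ → Bool) × (Fin r → Fin ζ → Fin b) =>
        Inj α q.1 q.2), G q := by
    filter_upwards [ae_sign h] with ω hω hx
    set σ : Fin r → Fin ζ → Bool := fun i j => decide (ϱ (Fin.castLE hrn i, j) ω = 1) with hσ
    set t : Fin r → Fin ζ → Fin b := fun i j => s (Fin.castLE hrn i, j) ω with ht
    have hsgn : ∀ i j, ϱ (Fin.castLE hrn i, j) ω = sgn (σ i j) := by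
      intro i j
      simp only [hσ, sgn, decide_eq_true_eq]
      rcases hω (Fin.castLE hrn i, j) with h1 | h1
      · rw [if_pos h1, h1]
      · rw [if_neg (by rw [h1]; norm_num), h1]
    rw [Set.mem_iUnion₂]
    refine ⟨(σ, t), ?_, fun i j => ⟨hsgn i j, rfl⟩⟩
    simp only [mem_filter, mem_univ, true_and]
    intro x
    have h1 := hx (E x) ⟨x, rfl⟩
    have h2 : sqNorm (E x) = ∑ i, x i ^ 2 := by
      unfold sqNorm
      symm
      apply Fintype.sum_of_injective (Fin.castLE hrn) hcinj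
      · intro i hi
        rw [hEout x i hi]; ring
      · intro i
        rw [hEapp]
    have h3 : sqNorm ((sparseStack ϱ s ω)ᵀ *ᵥ (E x)) = (ζ : ℝ)⁻¹ * ∑ j, ∑ c, (img t σ x j c) ^ 2 := by
      unfold sqNorm
      rw [Fintype.sum_prod_type, Finset.mul_sum]
      apply Finset.sum_congr rfl
      intro j _
      rw [Finset.mul_sum]
      apply Finset.sum_congr rfl
      intro c _
      have h4 : ((sparseStack ϱ s ω)ᵀ *ᵥ (E x)) (j, c) = (√(ζ : ℝ))⁻¹ * img t σ x j c := by
        simp only [Matrix.mulVec, dotProduct, Matrix.transpose_apply, sparseStack, img]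
        rw [Finset.mul_sum]
        symm
        apply Fintype.sum_of_injective (Fin.castLE hrn) hcinj
        · intro i hi
          rw [hEout x i hi, mul_zero]
        · intro i
          rw [hEapp]
          simp only [ht]
          by_cases h5 : s (Fin.castLE hrn i, j) ω = c
          · rw [if_pos h5, if_pos h5, hsgn]; ring
          · rw [if_neg h5, if_neg h5]; ring
      rw [h4, mul_pow, inv_pow, Real.sq_sqrt hζ'.le]
    rw [h2, h3] at h1
    have h6 := mul_le_mul_of_nonneg_left h1 hζ'.le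
    rw [← mul_assoc (ζ : ℝ) (ζ : ℝ)⁻¹, mul_inv_cancel₀ hζ'.ne', one_mul] at h6
    calc α * ζ * ∑ i, x i ^ 2 = ζ * (α * ∑ i, x i ^ 2) := by ring
      _ ≤ _ := h6
  have hGq : ∀ q, P.real (G q) = (1 / 2 * (1 / (b : ℝ))) ^ (r * ζ) := by
    intro q
    have := prob_pattern h hrn q.1 q.2
    rw [Measure.real, hG]
    simp only
    rw [this, ENNReal.toReal_pow, ENNReal.toReal_mul, ENNReal.toReal_div, ENNReal.toReal_div,
      ENNReal.toReal_natCast]
    norm_num
  have hcardtot : (Fintype.card ((Fin r → Fin ζ → Bool) × (Fin r → Fin ζ → Fin b)) : ℝ) *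
      (1 / 2 * (1 / (b : ℝ))) ^ (r * ζ) ≤ 1 := by
    rw [Fintype.card_prod, Fintype.card_fun, Fintype.card_fun, Fintype.card_fun, Fintype.card_fun,
      Fintype.card_fin, Fintype.card_fin, Fintype.card_fin, Fintype.card_bool]
    push_cast
    rw [← pow_mul, ← pow_mul, mul_comm ζ r, ← mul_pow, ← mul_pow]
    apply pow_le_one₀ (by positivity)
    by_cases hb : (b : ℝ) = 0
    · rw [hb]; norm_num
    · apply le_of_eq
      field_simp
  calc P.real {ω | ∀ x ∈ LinearMap.range E, α * sqNorm x ≤ sqNorm ((sparseStack ϱ s ω)ᵀ *ᵥ x)}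
      ≤ P.real (⋃ q ∈ univ.filter (fun q : (Fin r → Fin ζ → Bool) × (Fin r → Fin ζ → Fin b) =>
        Inj α q.1 q.2), G q) := by
        apply ENNReal.toReal_mono (measure_ne_top _ _)
        exact measure_mono_ae hcover
    _ ≤ ∑ q ∈ univ.filter (fun q : (Fin r → Fin ζ → Bool) × (Fin r → Fin ζ → Fin b) =>
        Inj α q.1 q.2), P.real (G q) := measureReal_biUnion_finset_le _ _
    _ = ((univ.filter (fun q : (Fin r → Fin ζ → Bool) × (Fin r → Fin ζ → Fin b) =>
        Inj α q.1 q.2)).card : ℝ) * (1 / 2 * (1 / (b : ℝ))) ^ (r * ζ) := by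
        rw [Finset.sum_congr rfl (fun q _ => hGq q), Finset.sum_const, nsmul_eq_mul]
    _ ≤ ((Fintype.card ((Fin r → Fin ζ → Bool) × (Fin r → Fin ζ → Fin b)) : ℝ) * ε) *
        (1 / 2 * (1 / (b : ℝ))) ^ (r * ζ) := mul_le_mul_of_nonneg_right hcard (by positivity)
    _ = ((Fintype.card ((Fin r → Fin ζ → Bool) × (Fin r → Fin ζ → Fin b)) : ℝ) *
        (1 / 2 * (1 / (b : ℝ))) ^ (r * ζ)) * ε := by ring
    _ ≤ 1 * ε := mul_le_mul_of_nonneg_right hcardtot hε.le
    _ = ε := one_mul ε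

/-- **Main theorem.**  For all `C₂`, `α₀ > 0` and `δ < 1` there are `c > 0` and `R` such that for all `r ≥ R`,
`n ≥ r`, `1 ≤ ζ ≤ c * sqrt (log r)` and `b ≥ 1` with `b * ζ ≤ C₂ * r`, the SparseStack matrix with `n` rows, `ζ`
blocks and block length `b` is not an oblivious subspace injection for `r`-dimensional subspaces of `ℝⁿ` with
parameter `α₀` and failure probability `δ`. -/
theorem result (C₂ α₀ δ : ℝ) (hα₀ : 0 < α₀) (hδ : δ < 1) :
    ∃ c : ℝ, 0 < c ∧ ∃ R : ℕ, ∀ r n ζ b : ℕ, R ≤ r → r ≤ n → 1 ≤ ζ → 1 ≤ b →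
      (ζ : ℝ) ≤ c * √(Real.log r) → ((b * ζ : ℕ) : ℝ) ≤ C₂ * r →
      ∀ {Ω : Type u} [MeasurableSpace Ω] (P : Measure Ω)
        (ϱ : Fin n × Fin ζ → Ω → ℝ) (s : Fin n × Fin ζ → Ω → Fin b),
        IsSparseStackSource P ϱ s → ¬ IsOSI P (sparseStack ϱ s) r α₀ δ := by
  obtain ⟨c, hc, R, hR⟩ := core C₂ α₀ ((1 - δ) / 2) hα₀ (by linarith)
  refine ⟨√c, Real.sqrt_pos.mpr hc, R, ?_⟩
  intro r n ζ b hr hrn hζ hb hζc hbC Ω _ P ϱ s hs hOSI
  have hlog : 0 ≤ Real.log r := Real.log_natCast_nonneg r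
  have h1 : (ζ : ℝ) ^ 2 ≤ c * Real.log r := by
    calc (ζ : ℝ) ^ 2 ≤ (√c * √(Real.log r)) ^ 2 := pow_le_pow_left₀ (by positivity) hζc 2
      _ = c * Real.log r := by rw [mul_pow, Real.sq_sqrt hc.le, Real.sq_sqrt hlog]
  have h2 := hR r ζ b hr hζ hb h1 (by exact_mod_cast hbC)
  obtain ⟨V, hV, hP⟩ := prob_le_card hs hrn hζ α₀ ((1 - δ) / 2) (by linarith) h2
  have h3 := hOSI V hV
  linarith

/-- The definition `IsSparseStackSource` is satisfiable: the product space of `n * ζ` copies of (uniform bit) ×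
(uniform position) carries such signs and positions. -/
theorem exists_isSparseStackSource (n ζ b : ℕ) (hb : 1 ≤ b) :
    ∃ (P : Measure (Fin n × Fin ζ → Bool × Fin b))
      (ϱ : Fin n × Fin ζ → (Fin n × Fin ζ → Bool × Fin b) → ℝ)
      (s : Fin n × Fin ζ → (Fin n × Fin ζ → Bool × Fin b) → Fin b), IsSparseStackSource P ϱ s := by
  have : Nonempty (Fin b) := ⟨⟨0, by omega⟩⟩
  set μ : Measure (Bool × Fin b) :=
    ((PMF.uniformOfFintype Bool).toMeasure).prod ((PMF.uniformOfFintype (Fin b)).toMeasure) with hμ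
  have hsgn : Measurable sgn := measurable_of_finite _
  refine ⟨Measure.pi (fun _ => μ), fun a ω => sgn (ω a).1, fun a ω => (ω a).2, ?_⟩
  have hmap : ∀ (a : Fin n × Fin ζ) (S : Set (Bool × Fin b)),
      (Measure.pi (fun _ : Fin n × Fin ζ => μ)) {ω | ω a ∈ S} = μ S := by
    intro a S
    exact (measurePreserving_eval (fun _ : Fin n × Fin ζ => μ) a).measure_preimage
      (Set.toFinite S).measurableSet.nullMeasurableSet
  have hbit : ∀ x : Bool, (PMF.uniformOfFintype Bool).toMeasure {x} = 1 / 2 := by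
    intro x
    rw [PMF.toMeasure_apply_singleton _ _ (measurableSet_singleton _), PMF.uniformOfFintype_apply]
    simp
  have hpos : ∀ c : Fin b, (PMF.uniformOfFintype (Fin b)).toMeasure {c} = 1 / (b : ℝ≥0∞) := by
    intro c
    rw [PMF.toMeasure_apply_singleton _ _ (measurableSet_singleton _), PMF.uniformOfFintype_apply]
    simp
  have hfst : ∀ x : Bool, μ {p | p.1 = x} = 1 / 2 := by
    intro x
    have e : {p : Bool × Fin b | p.1 = x} = {x} ×ˢ Set.univ := by
      ext p; simp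
    rw [e, hμ, Measure.prod_prod, hbit, measure_univ, mul_one]
  refine ⟨inferInstance, ?_, ?_, ?_, ?_, ?_, ?_, ?_⟩
  · intro a
    exact hsgn.comp (measurable_fst.comp (measurable_pi_apply a))
  · intro a
    exact measurable_snd.comp (measurable_pi_apply a)
  · intro a
    have e : {ω : Fin n × Fin ζ → Bool × Fin b | sgn (ω a).1 = 1} = {ω | ω a ∈ {p | p.1 = true}} := by
      ext ω
      simp only [Set.mem_ofPred_eq]
      cases (ω a).1 <;> simp [sgn]
      norm_num
    rw [e, hmap, hfst]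
  · intro a
    have e : {ω : Fin n × Fin ζ → Bool × Fin b | sgn (ω a).1 = -1} = {ω | ω a ∈ {p | p.1 = false}} := by
      ext ω
      simp only [Set.mem_ofPred_eq]
      cases (ω a).1 <;> simp [sgn]
      norm_num
    rw [e, hmap, hfst]
  · intro a c
    have e : {ω : Fin n × Fin ζ → Bool × Fin b | (ω a).2 = c} = {ω | ω a ∈ {p | p.2 = c}} := by
      ext ω; simp
    have e2 : {p : Bool × Fin b | p.2 = c} = Set.univ ×ˢ {c} := by
      ext p; simp
    rw [e, hmap, e2, hμ, Measure.prod_prod, hpos, measure_univ, one_mul]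
  · exact iIndepFun_pi (μ := fun _ : Fin n × Fin ζ => μ) (X := fun _ p => (sgn p.1, p.2))
      (fun _ => ((hsgn.comp measurable_fst).prodMk measurable_snd).aemeasurable)
  · intro a
    have hind : IndepFun (fun p : Bool × Fin b => sgn p.1) (fun p : Bool × Fin b => p.2) μ :=
      indepFun_prod hsgn measurable_id
    have hmp := measurePreserving_eval (fun _ : Fin n × Fin ζ => μ) a
    have hlaw : μ = (Measure.pi (fun _ : Fin n × Fin ζ => μ)).map (Function.eval a) := hmp.map_eq.symm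
    rw [indepFun_iff_measure_inter_preimage_eq_mul] at hind ⊢
    intro S T hS hT
    have hA : (fun ω : Fin n × Fin ζ → Bool × Fin b => sgn (ω a).1) ⁻¹' S =
        {ω | ω a ∈ (fun p : Bool × Fin b => sgn p.1) ⁻¹' S} := rfl
    have hB : (fun ω : Fin n × Fin ζ → Bool × Fin b => (ω a).2) ⁻¹' T =
        {ω | ω a ∈ (fun p : Bool × Fin b => p.2) ⁻¹' T} := rfl
    have hAB : (fun ω : Fin n × Fin ζ → Bool × Fin b => sgn (ω a).1) ⁻¹' S ∩
        (fun ω : Fin n × Fin ζ → Bool × Fin b => (ω a).2) ⁻¹' T =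
        {ω | ω a ∈ (fun p : Bool × Fin b => sgn p.1) ⁻¹' S ∩ (fun p : Bool × Fin b => p.2) ⁻¹' T} := rfl
    rw [hAB, hA, hB, hmap, hmap, hmap]
    exact hind S T hS hT

/-- The negated form of Q1, as worded in the problem (with failure probability `0.01`), follows from `result`. -/
theorem negated_form_Q1 (c C₁ C₂ α₀ : ℝ) (hc : 0 < c) (_hC₁ : 0 < C₁) (_hC₂ : 0 < C₂) (hα₀ : 0 < α₀) :
    ∃ n r : ℕ, 1 ≤ r ∧ (r : ℝ) ≤ c * (n / Real.log n) ∧
      ∀ ζ b : ℕ, 1 ≤ ζ → 1 ≤ b → (ζ : ℝ) ≤ C₁ → ((b * ζ : ℕ) : ℝ) ≤ C₂ * r →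
      ∀ {Ω : Type u} [MeasurableSpace Ω] (P : Measure Ω)
        (ϱ : Fin n × Fin ζ → Ω → ℝ) (s : Fin n × Fin ζ → Ω → Fin b),
        IsSparseStackSource P ϱ s → ¬ IsOSI P (sparseStack ϱ s) r α₀ 0.01 := by
  obtain ⟨c', hc', R, hR⟩ := result.{u} C₂ α₀ 0.01 hα₀ (by norm_num)
  -- `r` with `C₁ ≤ c' * sqrt (log r)`
  have h1 : Filter.Tendsto (fun r : ℕ => c' * √(Real.log r)) Filter.atTop Filter.atTop :=
    Filter.Tendsto.const_mul_atTop hc' (Real.tendsto_sqrt_atTop.comp
      (Real.tendsto_log_atTop.comp tendsto_natCast_atTop_atTop))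
  obtain ⟨r, hr1, hr2, hr3⟩ := ((h1.eventually_ge_atTop C₁).and
    ((Filter.eventually_ge_atTop R).and (Filter.eventually_ge_atTop 1))).exists
  -- `n` with `r ≤ c n / log n`
  have h2 : Filter.Tendsto (fun n : ℕ => c * ((n : ℝ) / Real.log n)) Filter.atTop Filter.atTop := by
    apply Filter.Tendsto.const_mul_atTop hc
    have h3 : Filter.Tendsto (fun x : ℝ => Real.log x / x) Filter.atTop (nhds 0) := by
      have := Real.isLittleO_log_id_atTop.tendsto_div_nhds_zero
      simpa using this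
    have h4 : Filter.Tendsto (fun x : ℝ => Real.log x / x) Filter.atTop (nhdsWithin 0 (Set.Ioi 0)) := by
      rw [tendsto_nhdsWithin_iff]
      refine ⟨h3, ?_⟩
      filter_upwards [Filter.eventually_gt_atTop 1] with x hx
      have : 0 < Real.log x := Real.log_pos hx
      have hx0 : 0 < x := by linarith
      exact div_pos this hx0
    have h5 := (h4.inv_tendsto_nhdsGT_zero).comp (tendsto_natCast_atTop_atTop (R := ℝ))
    refine h5.congr (fun n => ?_)
    simp [inv_div]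
  obtain ⟨n, hn1, hn2⟩ := ((h2.eventually_ge_atTop (r : ℝ)).and (Filter.eventually_ge_atTop r)).exists
  refine ⟨n, r, hr3, hn1, ?_⟩
  intro ζ b hζ hb hζC hbC Ω _ P ϱ s hs
  exact hR r n ζ b hr2 hn2 hζ hb (hζC.trans hr1) hbC P ϱ s hs

/-- Q2 has a negative answer: with `ζ = 4` and `k = 2 r` (`r = 2 * b` even) there is no absolute constant `α₀`;
in fact for every `α₀ > 0` the SparseStack fails to be an OSI with parameter `α₀` for all large `r` and all
`n ≥ r`. -/
theorem negative_answer_Q2 (α₀ : ℝ) (hα₀ : 0 < α₀) :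
    ∃ R : ℕ, ∀ b n : ℕ, R ≤ b → 2 * b ≤ n →
      ∀ {Ω : Type u} [MeasurableSpace Ω] (P : Measure Ω)
        (ϱ : Fin n × Fin 4 → Ω → ℝ) (s : Fin n × Fin 4 → Ω → Fin b),
        IsSparseStackSource P ϱ s → ¬ IsOSI P (sparseStack ϱ s) (2 * b) α₀ 0.01 := by
  obtain ⟨c', hc', R, hR⟩ := result.{u} 2 α₀ 0.01 hα₀ (by norm_num)
  have h1 : Filter.Tendsto (fun r : ℕ => c' * √(Real.log r)) Filter.atTop Filter.atTop :=
    Filter.Tendsto.const_mul_atTop hc' (Real.tendsto_sqrt_atTop.comp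
      (Real.tendsto_log_atTop.comp tendsto_natCast_atTop_atTop))
  obtain ⟨R₂, hR₂⟩ := Filter.eventually_atTop.mp (h1.eventually_ge_atTop 4)
  refine ⟨max 1 (max R R₂), ?_⟩
  intro b n hb hn Ω _ P ϱ s hs
  have hb1 : 1 ≤ b := (le_max_left _ _).trans hb
  have hbR : R ≤ b := ((le_max_left _ _).trans (le_max_right _ _)).trans hb
  have hbR₂ : R₂ ≤ b := ((le_max_right _ _).trans (le_max_right _ _)).trans hb
  refine hR (2 * b) n 4 b (by omega) hn (by norm_num) hb1 ?_ ?_ P ϱ s hs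
  · exact_mod_cast hR₂ (2 * b) (by omega)
  · push_cast
    linarith

end Pool.Agent.Results.MP_59a663_pr.SparsityLowerBound
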